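import Pool.Agent.X195.HC3

/-!
# MP_3bb15c_gt (Q1): a regular (even zero-dimensional) Hausdorff `s`-complete topological
semilattice which is not absolutely `H`-closed, and a Hausdorff one which is not `H`-closed
-/

set_option autoImplicit false

open Filter Topology TopologicalSpace

namespace Pool.Agent.Results.MP_3bb15c_gt.SCompleteNotAbsHClosed

open Pool.Agent.X195.HC

/-- `↓A` -/
def Down {X : Type} [SemilatticeInf X] (A : Set X) : Set X := {x | ∃ a ∈ A, x ≤ a}

/-- `↑A` -/
def Up {X : Type} [SemilatticeInf X] (A : Set X) : Set X := {x | ∃ a ∈ A, a ≤ x}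

/-- `s`-completeness. The semilattice operation is `x ⊓ y` and `x ≤ y` means `x ⊓ y = x`. -/
def SComplete (X : Type) [SemilatticeInf X] [TopologicalSpace X] : Prop :=
  (∀ S : Set X, S.Nonempty → (∀ x ∈ S, ∀ y ∈ S, x ⊓ y ∈ S) →
    ∃ i, IsGLB S i ∧ i ∈ closure (Up S)) ∧
  (∀ C : Set X, C.Nonempty → IsChain (· ≤ ·) C → ∃ s, IsLUB C s ∧ s ∈ closure (Down C))

/-- `X` is absolutely `H`-closed: every continuous homomorphism into a Hausdorff topological
semigroup has closed image. -/
def AbsolutelyHClosed (X : Type) [SemilatticeInf X] [TopologicalSpace X] : Prop :=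
  ∀ (Y : Type) [Semigroup Y] [TopologicalSpace Y] [ContinuousMul Y] [T2Space Y] (h : X → Y),
    Continuous h → (∀ x y, h (x ⊓ y) = h x * h y) → IsClosed (Set.range h)

/-- `X` is `H`-closed: every homomorphism into a Hausdorff topological semigroup which is a
topological embedding has closed image. -/
def HClosed (X : Type) [SemilatticeInf X] [TopologicalSpace X] : Prop :=
  ∀ (Y : Type) [Semigroup Y] [TopologicalSpace Y] [ContinuousMul Y] [T2Space Y] (h : X → Y),
    IsEmbedding h → (∀ x y, h (x ⊓ y) = h x * h y) → IsClosed (Set.range h)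

theorem sComplete_of (t : TopologicalSpace Y) (ht : tF ≤ t) :
    @SComplete Pool.Agent.X195.HC.X _ (t.induced Subtype.val) := by
  let _ : TopologicalSpace Pool.Agent.X195.HC.X := t.induced Subtype.val
  constructor
  · intro S hne hS
    obtain ⟨i, hi, hi2⟩ := inf_X t ht S hne hS
    have hsub : S ⊆ Up S := fun x hx => ⟨x, hx, le_rfl⟩
    exact ⟨i, hi, closure_mono hsub hi2⟩
  · intro C hne hC
    exact sup_X t ht C hne hC

/-- (1) There is a regular Hausdorff, even zero-dimensional, topological semilattice which is
`s`-complete but not absolutely `H`-closed. (2) There is a Hausdorff topological semilattice which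
is `s`-complete but not even `H`-closed. -/
theorem result :
    (∃ (X : Type) (_ : SemilatticeInf X) (_ : TopologicalSpace X),
      ContinuousInf X ∧ T2Space X ∧ RegularSpace X ∧ IsTopologicalBasis {s : Set X | IsClopen s} ∧
      SComplete X ∧ ¬ AbsolutelyHClosed X) ∧
    (∃ (X : Type) (_ : SemilatticeInf X) (_ : TopologicalSpace X),
      ContinuousInf X ∧ T2Space X ∧ SComplete X ∧ ¬ HClosed X) := by
  -- the Hausdorff topological semigroup `Y`
  let sg : Semigroup Y := { mul := fun x y => x ⊓ y, mul_assoc := fun x y z => inf_assoc x y z }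
  have hcm : @ContinuousMul Y tC sg.toMul :=
    @ContinuousMul.mk Y tC sg.toMul (CN.continuous₂ (fun x y => x ⊓ y) mulC)
  have hrange : Set.range (Subtype.val : Pool.Agent.X195.HC.X → Y) = {x | x ≠ yy} :=
    Subtype.range_val
  refine ⟨⟨Pool.Agent.X195.HC.X, inferInstance, tF.induced Subtype.val,
    continuousInf_X FN mulF, ?_, regularF, ?_, sComplete_of tF le_rfl, ?_⟩,
    ⟨Pool.Agent.X195.HC.X, inferInstance, tC.induced Subtype.val,
    continuousInf_X CN mulC, ?_, sComplete_of tC tF_le_tC, ?_⟩⟩
  · let _ : TopologicalSpace Y := tF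
    have _ : T2Space Y := t2F
    exact T2Space.of_injective_continuous Subtype.val_injective continuous_induced_dom
  · let _ : TopologicalSpace Pool.Agent.X195.HC.X := tF.induced Subtype.val
    refine isTopologicalBasis_of_isOpen_of_nhds (fun s hs => hs.2) fun x U hx hU => ?_
    obtain ⟨V, hV, hxV, hcl⟩ := clopenF x U (hU.mem_nhds hx)
    exact ⟨V, hcl, hxV, hV⟩
  · intro h
    have hc : @Continuous _ _ (tF.induced Subtype.val) tC
        (Subtype.val : Pool.Agent.X195.HC.X → Y) := by
      have h1 : @Continuous _ _ (tF.induced Subtype.val) tF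
        (Subtype.val : Pool.Agent.X195.HC.X → Y) := continuous_induced_dom
      exact continuous_le_rng tF_le_tC h1
    have := @h Y sg tC hcm t2C Subtype.val hc (fun _ _ => rfl)
    rw [hrange] at this
    exact not_closed this
  · let _ : TopologicalSpace Y := tC
    have _ : T2Space Y := t2C
    exact T2Space.of_injective_continuous Subtype.val_injective continuous_induced_dom
  · intro h
    let _ : TopologicalSpace Y := tC
    have := @h Y sg tC hcm t2C Subtype.val IsEmbedding.subtypeVal (fun _ _ => rfl)
    rw [hrange] at this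
    exact not_closed this

end Pool.Agent.Results.MP_3bb15c_gt.SCompleteNotAbsHClosed
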